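import Mathlib
import Pool.Agent.H421.Any

/-!
# Preperiodic points of bounded gonality: ALL endomorphisms of the projective line

This is the case `N = 1` of the question in full, with no exception: flexible Lattes maps are
included. The field of constants is an arbitrary field (of any characteristic), the field `K` is an
arbitrary extension of it.
-/

set_option autoImplicit false

namespace Pool.Agent.Results.MP_62a0c3_nt.ProjectiveLine

open Polynomial

universe u v

/-- The self-map of the projective line `F ∪ {∞}`, where `none` is `∞`, given by the rational
function `p / q`, where `p` and `q` are coprime and `d` is the larger of their degrees: it sends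
`x` to `p(x) / q(x)`, or to `∞` when `q(x) = 0`, and it sends `∞` to the quotient of the
coefficients of degree `d`, or to `∞` when that of `q` is zero. -/
noncomputable def mapP1 {F : Type*} [Field F] (p q : F[X]) (d : ℕ) : Option F → Option F
  | some x => by classical exact if q.eval x = 0 then none else some (p.eval x / q.eval x)
  | none => by classical exact if q.coeff d = 0 then none else some (p.coeff d / q.coeff d)

/-- With `φ(x) = (a x + b) / (c x + e)`, the map `p / q` of degree `d` satisfies
`φ ∘ (p / q) = (u / w) ∘ φ` for some `a, b, c, e` in `F` with `a e ≠ b c` and some polynomials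
`u, w` of degree at most `d`, not both zero, with coefficients algebraic over `k`; the equation is
written with denominators cleared. For the algebraically closed field `F` used below this says that
`p / q` is isotrivial. -/
def Isotrivial (k : Type*) {F : Type*} [Field k] [Field F] [Algebra k F] (p q : F[X])
    (d : ℕ) : Prop :=
  ∃ a b c e : F, a * e - b * c ≠ 0 ∧ ∃ u w : F[X], (u ≠ 0 ∨ w ≠ 0) ∧
    u.natDegree ≤ d ∧ w.natDegree ≤ d ∧ (∀ n, IsAlgebraic k (u.coeff n)) ∧
    (∀ n, IsAlgebraic k (w.coeff n)) ∧
    (C a * p + C b * q) * ∑ i ∈ Finset.range (d + 1),
      C (w.coeff i) * (C a * X + C b) ^ i * (C c * X + C e) ^ (d - i) =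
    (C c * p + C e * q) * ∑ i ∈ Finset.range (d + 1),
      C (u.coeff i) * (C a * X + C b) ^ i * (C c * X + C e) ^ (d - i)

/-- `K` has degree at most `D` over `k(B)` for some set `B` of elements of `K` which are
algebraically independent over `k`. For the function field of a curve over `k` this says that `K`
has degree at most `D` over `k(t)` for some `t`: its gonality is at most `D`. -/
def GonalityLE (k K : Type*) [Field k] [Field K] [Algebra k K] (D : ℕ) : Prop :=
  ∃ B : Set K, AlgebraicIndependent k ((↑) : B → K) ∧
    FiniteDimensional (IntermediateField.adjoin k B) K ∧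
    Module.finrank (IntermediateField.adjoin k B) K ≤ D

/-- `Preper(f, D)` for `f = p / q` over `K`: the points `x` of the projective line over the algebraic
closure of `K` which are preperiodic for `f` and for which `K(x)` has gonality at most `D` over
`k` (the point `∞` is included without a condition if it is preperiodic). -/
def Preper (k : Type*) {K : Type*} [Field k] [Field K] [Algebra k K] (p q : K[X]) (d D : ℕ) :
    Set (Option (AlgebraicClosure K)) :=
  {z | (Set.range fun m : ℕ => (mapP1 (p.map (algebraMap K (AlgebraicClosure K)))
      (q.map (algebraMap K (AlgebraicClosure K))) d)^[m] z).Finite ∧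
    ∀ x, z = some x → GonalityLE k (IntermediateField.adjoin K {x}) D}

/-- **The case `N = 1`, for all maps.** There is a function `C` such that the following holds for
all `c`, `D` and `d ≥ 2`, every field `k` of characteristic `c` (for instance, with `c = 0`, the
field of complex numbers), every field `K` over `k` (for instance the function field of a curve over
`k`, of any gonality), and every rational map `f = p / q` of degree `d` over `K` which is not
isotrivial: `Preper(f, D)` has at most `C(c, D, d)` points. -/
theorem result : ∃ C : ℕ → ℕ → ℕ → ℕ, ∀ (c D d : ℕ) (k : Type v) (K : Type u) [Field k]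
    [CharP k c] [Field K] [Algebra k K], 2 ≤ d → ∀ p q : K[X], IsCoprime p q →
    max p.natDegree q.natDegree = d →
    ¬ Isotrivial k (p.map (algebraMap K (AlgebraicClosure K)))
      (q.map (algebraMap K (AlgebraicClosure K))) d →
    (Preper k p q d D).encard ≤ ((C c D d : ℕ) : ℕ∞) := by
  have h : ∀ c D d : ℕ, ∃ N : ℕ, 2 ≤ d → ∀ (k : Type v) (K : Type u) [Field k] [CharP k c]
      [Field K] [Algebra k K] (p q : K[X]), IsCoprime p q → max p.natDegree q.natDegree = d →
      ¬ Pool.Agent.Y706.BI.IsoAlg k (p.map (algebraMap K (AlgebraicClosure K)))
        (q.map (algebraMap K (AlgebraicClosure K))) d →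
      {z : Option (AlgebraicClosure K) |
        (Set.range fun m : ℕ => (Pool.Agent.W277.UH.ratP1
          (p.map (algebraMap K (AlgebraicClosure K)))
          (q.map (algebraMap K (AlgebraicClosure K))) d)^[m] z).Finite ∧
        ∀ x, z = some x → ∃ B : Set (IntermediateField.adjoin K {x}),
          AlgebraicIndependent k ((↑) : B → IntermediateField.adjoin K {x}) ∧
          FiniteDimensional (IntermediateField.adjoin k B) (IntermediateField.adjoin K {x}) ∧
          Module.finrank (IntermediateField.adjoin k B) (IntermediateField.adjoin K {x}) ≤
            D}.encard ≤ ((N : ℕ) : ℕ∞) := by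
    intro c D d
    by_cases hd : 2 ≤ d
    · obtain ⟨N, hN⟩ := Pool.Agent.H421.Any.gon_any.{u, v} c D d hd
      exact ⟨N, fun _ => hN⟩
    · exact ⟨0, fun h => absurd h hd⟩
  choose N hN using h
  refine ⟨N, ?_⟩
  intro c D d k K _ _ _ _ hd p q hco hmax hiso
  have e : mapP1 (p.map (algebraMap K (AlgebraicClosure K)))
      (q.map (algebraMap K (AlgebraicClosure K))) d = Pool.Agent.W277.UH.ratP1
        (p.map (algebraMap K (AlgebraicClosure K)))
        (q.map (algebraMap K (AlgebraicClosure K))) d := by
    funext z
    cases z <;> rfl
  unfold Preper
  rw [e]
  exact hN c D d hd k K p q hco hmax hiso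

end Pool.Agent.Results.MP_62a0c3_nt.ProjectiveLine
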